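import Pool.Agent.Lib.FRoots.Final

open Nat

namespace Pool.Agent.Results.MP_917032_nt.NearFractions

/-- Few primes `p ≤ x` have a root `n` of `n! = ± 1 (mod p)` close to `(a/b)(p-1)`,
`b = 1, 2, 3, 4, 6`, except `n = 0, 1, (p-1)/2, p-2, p-1`. -/
theorem result : ∃ C : ℕ, ∀ x N M : ℕ, 1 ≤ x → 1 ≤ N → 1 ≤ M →
    {p : ℕ | p.Prime ∧ p ≤ x ∧ ∃ n : ℕ, 1 < n ∧ n + 2 < p ∧ 2 * n + 1 ≠ p ∧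
      ((p : ℤ) ∣ (n ! : ℤ) + 1 ∨ (p : ℤ) ∣ (n ! : ℤ) - 1) ∧
      ((∃ b ∈ ({1, 2} : Finset ℕ), b ∣ p - 1 ∧ ∃ a : ℕ, a ≤ b ∧
          |(n : ℚ) - (a : ℚ) / b * (p - 1)| ≤ N) ∨
       (∃ b ∈ ({3, 4, 6} : Finset ℕ), b ∣ p - 1 ∧ ∃ a : ℕ, a ≤ b ∧
          |(n : ℚ) - (a : ℚ) / b * (p - 1)| ≤ M))}.ncard
      ≤ C * (N ^ 2 + M ^ 2 * Nat.sqrt x) :=
  ⟨300000, fun x N M hx hN hM => Pool.FRoots.bad_card x N M hx hN hM⟩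

end Pool.Agent.Results.MP_917032_nt.NearFractions
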